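import Pool.Agent.Lib.P325x.Defs

/-!
Relabelings of a game, and relaxations that certify an upper bound for the value of a game.
-/

open scoped BigOperators

namespace Pool.Agent.Lib.P325av

open Pool.Agent.Lib.P325x (Game)

/-- The game `I` with its left vertices renamed by the permutation `g.1` and its right vertices
renamed by the permutation `g.2`. -/
def relabel {N : ℕ} {Ω ι : Type} (I : Game (Fin N) (Fin N) Ω ι)
    (g : Equiv.Perm (Fin N) × Equiv.Perm (Fin N)) : Game (Fin N) (Fin N) Ω ι :=
  Game.mk (fun e => g.1 (I.src e)) (fun e => g.2 (I.dst e)) I.perm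

/-- The relaxation with the set `F` of feasible points, in which the labeling `z` is the point
`pt z`, certifies the upper bound `s` for the value of the game `I`: some affine function
`w y + w0` that is equal to the fraction of satisfied edges at `pt z` for every labeling `z` is at
most `s` on `F`. -/
def Certifies {N : ℕ} {Ω ι Y : Type} [Fintype ι] [AddCommGroup Y] [Module ℝ Y] (F : Set Y)
    (pt : (Fin N ⊕ Fin N → Ω) → Y) (s : ℝ) (I : Game (Fin N) (Fin N) Ω ι) : Prop :=
  ∃ (w : Y →ₗ[ℝ] ℝ) (w0 : ℝ),
    (∀ z, w (pt z) + w0 = I.satFrac (fun u => z (Sum.inl u)) (fun u => z (Sum.inr u))) ∧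
    ∀ y ∈ F, w y + w0 ≤ s

end Pool.Agent.Lib.P325av
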