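import Pool.Agent.Lib.P325P.Fark
import Pool.Agent.Lib.P325av.Defs

/-!
From linear programs to short nonnegative decompositions of the lifted objective, at those copies
of the game on which the program succeeds (the proof follows `P325P.gameL`).
-/

open scoped BigOperators

namespace Pool.Agent.Lib.P325av

open Pool.Agent.Lib.P325x (Game)
open Pool.Agent.Lib.P325P (farkas)

/-- The copy of the game given by the choice `z` of a copy of every vertex. -/
def copyGame {n t N k : ℕ} {ι : Type} (cL cR : Fin n × Fin t → Fin N) (src dst : ι → Fin n)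
    (b : ι → ZMod k) (z : Fin n ⊕ Fin n → Fin t) : Game (Fin N) (Fin N) (ZMod k) ι :=
  Game.mk (fun e => cL (src e, z (Sum.inl (src e)))) (fun e => cR (dst e, z (Sum.inr (dst e))))
    (fun e => Equiv.addRight (b e))

theorem gameAv {n t N k : ℕ} [NeZero k] (cL cR : Fin n × Fin t → Fin N)
    (hcL : Function.Injective cL) (hcR : Function.Injective cR) (s : ℝ)
    {ι : Type} [Fintype ι] (src dst : ι → Fin n) (b : ι → ZMod k)
    {Y : Type} [AddCommGroup Y] [Module ℝ Y] (R : ℕ) (A : Fin R → Y →ₗ[ℝ] ℝ) (c : Fin R → ℝ)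
    (pt : (Fin N ⊕ Fin N → ZMod k) → Y) (hpt : ∀ z j, A j (pt z) ≤ c j) :
    ∃ (I : Type) (_ : Fintype I) (u : I → (Fin n ⊕ Fin n → Fin t) → ℝ)
      (v : I → ((Fin n ⊕ Fin n) × Fin t → ZMod k) → ℝ),
      Fintype.card I = R + 1 ∧ (∀ j z, 0 ≤ u j z) ∧ (∀ j x, 0 ≤ v j x) ∧
      (∀ j z, ¬ Certifies {y | ∀ j, A j y ≤ c j} pt s (copyGame cL cR src dst b z) → u j z = 0) ∧
      ∀ z, Certifies {y | ∀ j, A j y ≤ c j} pt s (copyGame cL cR src dst b z) →
        ∀ x : (Fin n ⊕ Fin n) × Fin t → ZMod k,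
        s - (Game.mk src dst (fun e => Equiv.addRight (b e))).satFrac
          (fun i => x (Sum.inl i, z (Sum.inl i))) (fun i => x (Sum.inr i, z (Sum.inr i))) =
          ∑ j, u j z * v j x := by
  classical
  let ext : ((Fin n ⊕ Fin n) × Fin t → ZMod k) → (Fin N ⊕ Fin N → ZMod k) := fun x =>
    Sum.elim (Function.extend cL (fun p => x (Sum.inl p.1, p.2)) (fun _ => 0))
      (Function.extend cR (fun p => x (Sum.inr p.1, p.2)) (fun _ => 0))
  have hextL : ∀ x i a, ext x (Sum.inl (cL (i, a))) = x (Sum.inl i, a) := by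
    intro x i a
    exact hcL.extend_apply (fun p => x (Sum.inl p.1, p.2)) (fun _ => 0) (i, a)
  have hextR : ∀ x i a, ext x (Sum.inr (cR (i, a))) = x (Sum.inr i, a) := by
    intro x i a
    exact hcR.extend_apply (fun p => x (Sum.inr p.1, p.2)) (fun _ => 0) (i, a)
  have key : ∀ z : Fin n ⊕ Fin n → Fin t, ∃ (l : Fin R → ℝ) (μ : ℝ), (∀ j, 0 ≤ l j) ∧ 0 ≤ μ ∧
      (¬ Certifies {y | ∀ j, A j y ≤ c j} pt s (copyGame cL cR src dst b z) →
        μ = 0 ∧ ∀ j, l j = 0) ∧
      (Certifies {y | ∀ j, A j y ≤ c j} pt s (copyGame cL cR src dst b z) →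
      ∀ X : Fin N ⊕ Fin N → ZMod k,
        s - (Game.mk src dst (fun e => Equiv.addRight (b e))).satFrac
          (fun i => X (Sum.inl (cL (i, z (Sum.inl i)))))
          (fun i => X (Sum.inr (cR (i, z (Sum.inr i))))) =
          μ + ∑ j, l j * (c j - A j (pt X))) := by
    intro z
    by_cases hC : Certifies {y | ∀ j, A j y ≤ c j} pt s (copyGame cL cR src dst b z)
    · have hsat : ∀ (f g : Fin N → ZMod k),
          (copyGame cL cR src dst b z).satFrac f g =
          (Game.mk src dst (fun e => Equiv.addRight (b e))).satFrac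
            (fun i => f (cL (i, z (Sum.inl i)))) (fun i => g (cR (i, z (Sum.inr i)))) :=
        fun f g => rfl
      obtain ⟨w, w0, hw1, hw2⟩ := id hC
      obtain ⟨l, hl1, hl2, hl3⟩ := farkas R A c (pt (fun _ => 0)) (hpt _) w (s - w0)
        (fun y hy => by linarith [hw2 y hy])
      refine ⟨l, s - w0 - ∑ j, l j * c j, hl1, by linarith, fun h => absurd hC h, fun _ X => ?_⟩
      have h2 := hw1 X
      rw [hsat] at h2
      have h3 : w (pt X) = ∑ j, l j * A j (pt X) := by
        rw [hl2]
        simp only [LinearMap.sum_apply, LinearMap.smul_apply, smul_eq_mul]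
      have h4 : ∑ j, l j * (c j - A j (pt X)) = ∑ j, l j * c j - ∑ j, l j * A j (pt X) := by
        rw [← Finset.sum_sub_distrib]
        exact Finset.sum_congr rfl fun j _ => by ring
      rw [h4, ← h3, ← h2]
      ring
    · exact ⟨fun _ => 0, 0, fun _ => le_rfl, le_rfl, fun _ => ⟨rfl, fun _ => rfl⟩,
        fun h => absurd h hC⟩
  choose l μ hl hμ h0 hX using key
  refine ⟨Option (Fin R), inferInstance,
    fun o z => o.elim (μ z) (fun j => l z j),
    fun o x => o.elim 1 (fun j => c j - A j (pt (ext x))), ?_, ?_, ?_, ?_, ?_⟩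
  · rw [Fintype.card_option, Fintype.card_fin]
  · rintro (_ | j) z
    · exact hμ z
    · exact hl z j
  · rintro (_ | j) x
    · exact zero_le_one
    · exact sub_nonneg.2 (hpt _ j)
  · rintro (_ | j) z hz
    · exact (h0 z hz).1
    · exact (h0 z hz).2 j
  · intro z hz x
    have h1 := hX z hz (ext x)
    simp only [hextL, hextR] at h1
    rw [h1, Fintype.sum_option]
    simp only [Option.elim_none, Option.elim_some, mul_one]

end Pool.Agent.Lib.P325av
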