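import Pool.Agent.Lib.P325av.GameAv

/-!
From the average over the choices of copies to the average over the relabelings.
-/

open scoped BigOperators

namespace Pool.Agent.Lib.P325av

open Pool.Agent.Lib.P325x (Game)

theorem exists_perm {A B : Type*} [Fintype B] [DecidableEq B] (f g : A → B)
    (hf : Function.Injective f) (hg : Function.Injective g) :
    ∃ σ : Equiv.Perm B, ∀ a, σ (f a) = g a := by
  classical
  let e : {x // x ∈ Set.range f} ≃ {x // x ∈ Set.range g} :=
    (Equiv.ofInjective f hf).symm.trans (Equiv.ofInjective g hg)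
  refine ⟨e.extendSubtype, fun a => ?_⟩
  rw [Equiv.extendSubtype_apply_of_mem e (f a) ⟨a, rfl⟩]
  have h1 : (Equiv.ofInjective f hf).symm ⟨f a, ⟨a, rfl⟩⟩ = a :=
    (Equiv.ofInjective f hf).symm_apply_eq.2 rfl
  show ((Equiv.ofInjective g hg) ((Equiv.ofInjective f hf).symm ⟨f a, ⟨a, rfl⟩⟩) : B) = g a
  rw [h1]
  rfl

theorem relabel_mul {N : ℕ} {Ω ι : Type} (I : Game (Fin N) (Fin N) Ω ι)
    (g h : Equiv.Perm (Fin N) × Equiv.Perm (Fin N)) :
    relabel (relabel I h) g = relabel I (g * h) := rfl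

/-- All copies of the game are relabelings of one of them. -/
theorem copy_relabel {n t N k : ℕ} {ι : Type} (cp : Fin n × Fin t → Fin N)
    (hcp : Function.Injective cp) (src dst : ι → Fin n) (b : ι → ZMod k)
    (z z' : Fin n ⊕ Fin n → Fin t) :
    ∃ h : Equiv.Perm (Fin N) × Equiv.Perm (Fin N), ∀ g : Equiv.Perm (Fin N) × Equiv.Perm (Fin N),
      copyGame (fun p => g.1 (cp p)) (fun p => g.2 (cp p)) src dst b z' =
        relabel (copyGame cp cp src dst b z) (g * h) := by
  obtain ⟨α, hα⟩ := exists_perm (fun i : Fin n => cp (i, z (Sum.inl i)))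
    (fun i => cp (i, z' (Sum.inl i))) (fun i j h => (Prod.ext_iff.1 (hcp h)).1)
    (fun i j h => (Prod.ext_iff.1 (hcp h)).1)
  obtain ⟨β, hβ⟩ := exists_perm (fun i : Fin n => cp (i, z (Sum.inr i)))
    (fun i => cp (i, z' (Sum.inr i))) (fun i j h => (Prod.ext_iff.1 (hcp h)).1)
    (fun i j h => (Prod.ext_iff.1 (hcp h)).1)
  refine ⟨(α, β), fun g => ?_⟩
  unfold copyGame relabel
  congr 1
  · funext e
    show g.1 (cp (src e, z' (Sum.inl (src e)))) = g.1 (α (cp (src e, z (Sum.inl (src e)))))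
    rw [hα (src e)]
  · funext e
    show g.2 (cp (dst e, z' (Sum.inr (dst e)))) = g.2 (β (cp (dst e, z (Sum.inr (dst e)))))
    rw [hβ (dst e)]

/-- Double counting with a group action. -/
theorem dbl {G Zt : Type} [Group G] [Fintype G] [Fintype Zt] [Nonempty Zt] (P : G → Zt → Prop)
    (Q : G → Prop) (hP : ∀ z, ∃ h : G, ∀ g, P g z ↔ Q (g * h)) (ρ : ℝ)
    (hle : ∀ g, (Nat.card {z // P g z} : ℝ) ≤ ρ * Fintype.card Zt) :
    (Nat.card {g // Q g} : ℝ) ≤ ρ * Fintype.card G := by
  classical
  have hZpos : (0 : ℝ) < Fintype.card Zt := by exact_mod_cast Fintype.card_pos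
  have hz : ∀ z : Zt, (Finset.univ.filter (fun g : G => P g z)).card =
      (Finset.univ.filter (fun g : G => Q g)).card := by
    intro z
    obtain ⟨hh, h1⟩ := hP z
    refine Finset.card_bij (fun g _ => g * hh) ?_ ?_ ?_
    · intro g hg
      rw [Finset.mem_filter] at hg ⊢
      exact ⟨Finset.mem_univ _, (h1 g).1 hg.2⟩
    · intro g _ g' _ h2
      exact mul_right_cancel h2
    · intro g hg
      rw [Finset.mem_filter] at hg
      refine ⟨g * hh⁻¹, ?_, inv_mul_cancel_right g hh⟩
      rw [Finset.mem_filter]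
      refine ⟨Finset.mem_univ _, ?_⟩
      rw [h1 (g * hh⁻¹), inv_mul_cancel_right]
      exact hg.2
  have hcount : (Fintype.card Zt : ℝ) * ((Finset.univ.filter (fun g : G => Q g)).card : ℝ) =
      ∑ g : G, ((Finset.univ.filter (fun z : Zt => P g z)).card : ℝ) := by
    have h2 : ∑ z : Zt, ((Finset.univ.filter (fun g : G => P g z)).card : ℝ) =
        ∑ g : G, ((Finset.univ.filter (fun z : Zt => P g z)).card : ℝ) := by
      have h3 : ∀ z : Zt, ((Finset.univ.filter (fun g : G => P g z)).card : ℝ) =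
          ∑ g : G, if P g z then (1 : ℝ) else 0 := by
        intro z
        rw [Finset.sum_boole]
      have h4 : ∀ g : G, ((Finset.univ.filter (fun z : Zt => P g z)).card : ℝ) =
          ∑ z : Zt, if P g z then (1 : ℝ) else 0 := by
        intro g
        rw [Finset.sum_boole]
      rw [Finset.sum_congr rfl (fun z _ => h3 z), Finset.sum_congr rfl (fun g _ => h4 g),
        Finset.sum_comm]
    rw [← h2, Finset.sum_congr rfl (fun z _ => by rw [hz z]), Finset.sum_const, Finset.card_univ,
      nsmul_eq_mul]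
  have hsum : ∑ g : G, ((Finset.univ.filter (fun z : Zt => P g z)).card : ℝ) ≤
      ∑ _g : G, ρ * (Fintype.card Zt : ℝ) := by
    refine Finset.sum_le_sum fun g _ => ?_
    have h2 := hle g
    rw [Nat.card_eq_fintype_card, Fintype.card_subtype] at h2
    exact h2
  rw [Finset.sum_const, Finset.card_univ, nsmul_eq_mul] at hsum
  rw [Nat.card_eq_fintype_card, Fintype.card_subtype]
  refine le_of_mul_le_mul_left ?_ hZpos
  rw [hcount]
  linarith

/-- If for every relabeling at most a fraction `ρ` of the copies has the property `Q`, then at most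
a fraction `ρ` of the relabelings of one copy has the property. -/
theorem perm_avg {n t N k : ℕ} {ι : Type} (cp : Fin n × Fin t → Fin N)
    (hcp : Function.Injective cp) (src dst : ι → Fin n) (b : ι → ZMod k)
    (z0 : Fin n ⊕ Fin n → Fin t) (Q : Game (Fin N) (Fin N) (ZMod k) ι → Prop) (ρ : ℝ)
    (h : ∀ g : Equiv.Perm (Fin N) × Equiv.Perm (Fin N),
      (Nat.card {z : Fin n ⊕ Fin n → Fin t //
        Q (copyGame (fun p => g.1 (cp p)) (fun p => g.2 (cp p)) src dst b z)} : ℝ) ≤
        ρ * Fintype.card (Fin n ⊕ Fin n → Fin t)) :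
    (Nat.card {g : Equiv.Perm (Fin N) × Equiv.Perm (Fin N) //
      Q (relabel (copyGame cp cp src dst b z0) g)} : ℝ) ≤ ρ * (N.factorial : ℝ) ^ 2 := by
  have hGc : (Fintype.card (Equiv.Perm (Fin N) × Equiv.Perm (Fin N)) : ℝ) =
      (N.factorial : ℝ) ^ 2 := by
    rw [Fintype.card_prod, Fintype.card_perm, Fintype.card_fin]
    push_cast
    ring
  have : Nonempty (Fin n ⊕ Fin n → Fin t) := ⟨z0⟩
  rw [← hGc]
  refine dbl (fun g z => Q (copyGame (fun p => g.1 (cp p)) (fun p => g.2 (cp p)) src dst b z))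
    (fun g => Q (relabel (copyGame cp cp src dst b z0) g)) ?_ ρ h
  intro z
  obtain ⟨hh, h1⟩ := copy_relabel cp hcp src dst b z0 z
  exact ⟨hh, fun g => by rw [h1 g]⟩

end Pool.Agent.Lib.P325av
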