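import Pool.Agent.Lib.P325P.Rank

/-!
The lower bound `P325P.rank` when the decomposition is available only for some of the choices of
copies.
-/

open scoped BigOperators

namespace Pool.Agent.Lib.P325av

open Pool.Agent.Lib.P325h (IsLocalExpectation)
open Pool.Agent.Lib.P325P Pool.Agent.Lib.P325P.RankAux

variable {V K Ω : Type} [Fintype V] [DecidableEq V] [Fintype K] [DecidableEq K] [Fintype Ω]
  [Nonempty Ω] [Nonempty K]

theorem avg_sum_good {I : Type} [Fintype I] (u : I → (V → K) → ℝ) (v : I → (V × K → Ω) → ℝ)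
    (F : (V → Ω) → ℝ) (G : (V → K) → Prop) [DecidablePred G]
    (h0 : ∀ j z, ¬ G z → u j z = 0)
    (hdec : ∀ z : V → K, G z → ∀ x : V × K → Ω, F (fun i => x (i, z i)) = ∑ j, u j z * v j x)
    (y : V → Ω) : mean (fun z : V → K => if G z then (1 : ℝ) else 0) * F y =
      ∑ j, avg (u j) (v j) y := by
  unfold avg
  rw [← mean_sum]
  have h : ∀ z : V → K, ∑ j, u j z * lift z (v j) y = F y * (if G z then (1 : ℝ) else 0) := by
    intro z
    by_cases hz : G z
    · rw [if_pos hz, mul_one, ← lift_sum z (fun j => u j z) v y, ← lift_sel z F y]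
      congr 1
      funext x
      exact (hdec z hz x).symm
    · rw [if_neg hz, mul_zero]
      exact Finset.sum_eq_zero fun j _ => by rw [h0 j z hz, zero_mul]
  rw [mean_congr h, mean_mul_left, mul_comm]

theorem rankAv {r : ℕ} {E : ((V → Ω) → ℝ) →ₗ[ℝ] ℝ} (hE : IsLocalExpectation r E)
    (F : (V → Ω) → ℝ) (hF1 : ∀ y, F y ≤ 1)
    (hFr : ∀ T : Finset V, r < T.card → ∀ y, es T F y = 0)
    {I : Type} [Fintype I] (u : I → (V → K) → ℝ) (v : I → (V × K → Ω) → ℝ)
    (hu : ∀ j z, 0 ≤ u j z) (hv : ∀ j x, 0 ≤ v j x)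
    (G : (V → K) → Prop) [DecidablePred G]
    (h0 : ∀ j z, ¬ G z → u j z = 0)
    (hdec : ∀ z : V → K, G z → ∀ x : V × K → Ω, F (fun i => x (i, z i)) = ∑ j, u j z * v j x)
    (τ L : ℝ) (hτ : 0 < τ)
    (hT : ∀ j : ℕ, r < 2 * j → 1 < τ * Real.sqrt (Fintype.card K) ^ j)
    (hL : (r : ℝ) * Real.log (Fintype.card Ω) + Real.log (1 / τ) ≤ L)
    (hγ : 4 * (Fintype.card Ω : ℝ) * ((Fintype.card V : ℝ) *
      (Real.exp 1 * (Fintype.card Ω : ℝ) * Real.sqrt (L + 1) /
        Real.sqrt (Real.sqrt (Fintype.card K)))) ≤ Real.exp (-4)) :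
    -((Fintype.card I : ℝ) * (2 * ((2 * (Fintype.card Ω : ℝ) *
      ((Fintype.card V : ℝ) + 1)) ^ r * τ) + Real.exp (-(2 * (r : ℝ))))) ≤
      mean (fun z : V → K => if G z then (1 : ℝ) else 0) * E F := by
  classical
  have hB : 0 ≤ 2 * ((2 * (Fintype.card Ω : ℝ) * ((Fintype.card V : ℝ) + 1)) ^ r * τ) +
      Real.exp (-(2 * (r : ℝ))) := by positivity
  set B : ℝ := 2 * ((2 * (Fintype.card Ω : ℝ) * ((Fintype.card V : ℝ) + 1)) ^ r * τ) +
      Real.exp (-(2 * (r : ℝ))) with hBdef
  have hprod : ∀ j z x, u j z * v j x ≤ 1 := by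
    intro j z x
    by_cases hz : G z
    · refine le_trans ?_ (hF1 (fun i => x (i, z i)))
      rw [hdec z hz x]
      exact Finset.single_le_sum (f := fun j => u j z * v j x)
        (fun i _ => mul_nonneg (hu i z) (hv i x)) (Finset.mem_univ j)
    · rw [h0 j z hz, zero_mul]
      exact zero_le_one
  have hj : ∀ j, -B ≤ Lam r E (avg (u j) (v j)) := by
    intro j
    obtain ⟨x0, hx0⟩ := Finite.exists_max (v j)
    by_cases hc : v j x0 = 0
    · have hv0 : ∀ x, v j x = 0 := fun x => le_antisymm (hc ▸ hx0 x) (hv j x)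
      have h0 : avg (u j) (v j) = fun y => ∑ i ∈ (∅ : Finset I), (1 : ℝ) * (avg (u i) (v i)) y := by
        funext y
        rw [Finset.sum_empty]
        unfold avg lift
        have : ∀ z : V → K, u j z * mean (fun x : V × K → Ω =>
            v j (fun p => if p.2 = z p.1 then y p.1 else x p)) = 0 := by
          intro z
          rw [mean_congr (g := fun _ => (0 : ℝ)) (fun x => hv0 _), mean_const, mul_zero]
        rw [mean_congr (g := fun _ => (0 : ℝ)) this, mean_const]
      rw [h0, lam_sum, Finset.sum_empty]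
      linarith
    · have hcpos : 0 < v j x0 := lt_of_le_of_ne (hv j x0) (Ne.symm hc)
      rw [← avg_scale (u j) (v j) hc]
      refine term hE _ (fun z => mul_nonneg hcpos.le (hu j z)) (fun z => ?_) _
        (fun x => mul_nonneg (inv_nonneg.2 hcpos.le) (hv j x)) (fun x => ?_) τ L hτ hT hL hγ
      · rw [mul_comm]
        exact hprod j z x0
      · rw [inv_mul_le_iff₀ hcpos, mul_one]
        exact hx0 x
  set ρ : ℝ := mean (fun z : V → K => if G z then (1 : ℝ) else 0) with hρ
  have hF : ρ • F = fun y => ∑ j ∈ (Finset.univ : Finset I), (1 : ℝ) * (avg (u j) (v j)) y := by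
    funext y
    rw [Pi.smul_apply, smul_eq_mul, hρ, avg_sum_good u v F G h0 hdec y]
    exact Finset.sum_congr rfl fun j _ => (one_mul _).symm
  have hFr' : ∀ T : Finset V, r < T.card → ∀ y, es T (ρ • F) y = 0 := by
    intro T hT' y
    have e1 : es T (ρ • F) y = ρ * es T F y := by
      unfold es cm
      rw [Finset.mul_sum]
      refine Finset.sum_congr rfl fun S _ => ?_
      have e2 : (mean fun x : V → Ω => (ρ • F) fun w => if w ∈ S then y w else x w) =
          ρ * mean fun x : V → Ω => F fun w => if w ∈ S then y w else x w := by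
        rw [← mean_mul_left]
        rfl
      rw [e2]
      ring
    rw [e1, hFr T hT' y, mul_zero]
  have hE2 : ρ * E F = E (ρ • F) := by rw [map_smul, smul_eq_mul]
  rw [hE2, ← lam_eq r E (ρ • F) hFr']
  conv_rhs => rw [hF]
  rw [lam_sum]
  calc -((Fintype.card I : ℝ) * B) = ∑ _j : I, -B := by
        rw [Finset.sum_const, Finset.card_univ, nsmul_eq_mul]
        ring
    _ ≤ ∑ j, 1 * Lam r E (avg (u j) (v j)) := by
        apply Finset.sum_le_sum
        intro j _
        rw [one_mul]
        exact hj j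

end Pool.Agent.Lib.P325av
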