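import Pool.Agent.Lib.P325x.Defs
import Pool.Agent.Lib.P325h.Defs
import Pool.Agent.Lib.P325P.EsSat
import Pool.Agent.Lib.P325P.ParaP
import Pool.Agent.Lib.P325cv.Para
import Pool.Agent.Lib.P325av.GameAv
import Pool.Agent.Lib.P325av.RankAv
import Pool.Agent.Lib.P325av.Perm

/-!
Linear programs fail on almost all relabelings of one game, from Sherali-Adams solutions for a
family of games.
-/

open scoped BigOperators

namespace Pool.Agent.Lib.P325av

open Pool.Agent.Lib.P325x (Game)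
open Pool.Agent.Lib.P325h (IsLocalExpectation)
open Pool.Agent.Lib.P325P (paraP es es_sat mean)

/-- Sherali-Adams solutions of degree at least `(2 n) ^ e` and objective at least `s` for games on
`n + n` vertices of value at most `δ`, second eigenvalue at most `μ` and degrees at most `Δ`, for
all large `n`. -/
def Base (s δ μ e : ℝ) (k Δ : ℕ) : Prop :=
  ∃ n0 : ℕ, ∀ n ≥ n0, ∃ (ι : Type) (_ : Fintype ι) (src dst : ι → Fin n)
      (b : ι → ZMod k) (r : ℕ)
      (E : ((Fin n ⊕ Fin n → ZMod k) → ℝ) →ₗ[ℝ] ℝ), Nonempty ι ∧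
      (2 * (n : ℝ)) ^ e ≤ r ∧
      (Game.mk src dst (fun e => Equiv.addRight (b e))).value ≤ δ ∧
      (Game.mk src dst (fun e => Equiv.addRight (b e))).SecondEigenvalueLE μ ∧
      (∀ v, (Finset.univ.filter (fun e => src e = v)).card ≤ Δ) ∧
      (∀ v, (Finset.univ.filter (fun e => dst e = v)).card ≤ Δ) ∧
      IsLocalExpectation r E ∧
      s ≤ E (fun z => (Game.mk src dst (fun e => Equiv.addRight (b e))).satFrac
        (fun u => z (Sum.inl u)) (fun w => z (Sum.inr w)))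

/-- One copy of a game has the value and the second eigenvalue of the game. -/
theorem copy_props {n t N k : ℕ} [NeZero k] (cp : Fin n × Fin t → Fin N)
    {ι : Type} [Fintype ι] (src dst : ι → Fin n) (b : ι → ZMod k) (δ μ : ℝ)
    (hval : (Game.mk src dst (fun e => Equiv.addRight (b e))).value ≤ δ)
    (heig : (Game.mk src dst (fun e => Equiv.addRight (b e))).SecondEigenvalueLE μ)
    (z : Fin n ⊕ Fin n → Fin t) :
    (copyGame cp cp src dst b z).value ≤ δ ∧
      (copyGame cp cp src dst b z).SecondEigenvalueLE μ := by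
  have hsat : ∀ (f g : Fin N → ZMod k),
      (copyGame cp cp src dst b z).satFrac f g =
      (Game.mk src dst (fun e => Equiv.addRight (b e))).satFrac
        (fun i => f (cp (i, z (Sum.inl i)))) (fun i => g (cp (i, z (Sum.inr i)))) :=
    fun f g => rfl
  constructor
  · refine le_trans ?_ hval
    unfold Game.value
    apply ciSup_le
    intro p
    rw [hsat]
    exact le_ciSup (f := fun q : (Fin n → ZMod k) × (Fin n → ZMod k) =>
      (Game.mk src dst (fun e => Equiv.addRight (b e))).satFrac q.1 q.2)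
      (Set.finite_range _).bddAbove
      ((fun i => p.1 (cp (i, z (Sum.inl i)))), (fun i => p.2 (cp (i, z (Sum.inr i)))))
  · exact fun f g hf hg => heig (fun i => f (cp (i, z (Sum.inl i))))
      (fun i => g (cp (i, z (Sum.inr i)))) hf hg

/-- Degrees in one copy of a game. -/
theorem copy_deg {n t N : ℕ} (cp : Fin n × Fin t → Fin N) (hcp : Function.Injective cp)
    {ι : Type} [Fintype ι] (src : ι → Fin n) (Δ : ℕ)
    (hsrc : ∀ v, (Finset.univ.filter (fun e => src e = v)).card ≤ Δ) (i0 : Fin t) (v : Fin N) :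
    (Finset.univ.filter (fun e => cp (src e, i0) = v)).card ≤ Δ := by
  by_cases h : ∃ i, cp (i, i0) = v
  · obtain ⟨i, rfl⟩ := h
    refine le_trans (Finset.card_le_card ?_) (hsrc i)
    intro e he
    simp only [Finset.mem_filter, Finset.mem_univ, true_and] at he ⊢
    exact congrArg Prod.fst (hcp he)
  · rw [Finset.filter_eq_empty_iff.2]
    · simp
    · intro e _ he
      exact h ⟨src e, he⟩

theorem lpAv (s s1 δ μ e q : ℝ) (hs1 : s ≤ 1) (hss : s < s1) (he0 : 0 < e) (he4 : e ≤ 1 / 4)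
    (hq0 : 0 ≤ q) (hq : q < e / 7) (k Δ : ℕ) (hk1 : 1 ≤ k) (hbase : Base s1 δ μ e k Δ) :
    ∃ N0 : ℕ, ∀ N ≥ N0, ∃ (ι : Type) (_ : Fintype ι) (src dst : ι → Fin N) (b : ι → ZMod k),
      Nonempty ι ∧
      (Game.mk src dst (fun e => Equiv.addRight (b e))).value ≤ δ ∧
      (Game.mk src dst (fun e => Equiv.addRight (b e))).SecondEigenvalueLE μ ∧
      (∀ v, (Finset.univ.filter (fun e => src e = v)).card ≤ Δ) ∧
      (∀ v, (Finset.univ.filter (fun e => dst e = v)).card ≤ Δ) ∧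
      ∀ (Y : Type) [AddCommGroup Y] [Module ℝ Y] (R : ℕ)
        (A : Fin R → Y →ₗ[ℝ] ℝ) (c : Fin R → ℝ) (pt : (Fin N ⊕ Fin N → ZMod k) → Y),
        (R : ℝ) ≤ Real.exp ((2 * (N : ℝ)) ^ q) → (∀ z j, A j (pt z) ≤ c j) →
        (Nat.card {g : Equiv.Perm (Fin N) × Equiv.Perm (Fin N) //
          Certifies {y | ∀ j, A j y ≤ c j} pt s
            (relabel (Game.mk src dst (fun e => Equiv.addRight (b e))) g)} : ℝ) ≤
          Real.exp (-(2 * (N : ℝ)) ^ q) * (N.factorial : ℝ) ^ 2 := by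
  have : NeZero k := ⟨by omega⟩
  obtain ⟨n0, hn0⟩ := hbase
  have hη : 0 < s1 - s := by linarith
  obtain ⟨N1, hN1⟩ := paraP e (s1 - s) he0 he4 hη k n0 hk1
  obtain ⟨N2, hN2⟩ := P325cv.exists_rpow_ge (e / 7 - q) 3 (by linarith)
  refine ⟨max (max N1 N2) 1, fun N hN => ?_⟩
  have hNN1 : N1 ≤ N := le_trans (le_trans (le_max_left _ _) (le_max_left _ _)) hN
  have hNN2 : N2 ≤ N := le_trans (le_trans (le_max_right _ _) (le_max_left _ _)) hN
  have hN0 : 1 ≤ N := le_trans (le_max_right _ _) hN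
  have hN2' : (1 : ℝ) ≤ 2 * (N : ℝ) := by
    have : (1 : ℝ) ≤ N := by exact_mod_cast hN0
    linarith
  obtain ⟨n, r, τ, hn, hn1, hnN, hr2, hr0, hrN, hτ, herr, hT, hγ⟩ := hN1 N hNN1
  obtain ⟨ι, hι, src, dst, b, r0, E, hne, hdeg, hval, heig, hd1, hd2, hE, hsat⟩ := hn0 n hn
  have hrr : r ≤ r0 := hr0 r0 hdeg
  have hEr : IsLocalExpectation r E :=
    ⟨hE.one, fun f D hD hf h0 => hE.nonneg f D (hD.trans hrr) hf h0⟩
  have hKpos : 0 < n ^ 5 := by positivity
  have : Nonempty (Fin (n ^ 5)) := ⟨⟨0, hKpos⟩⟩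
  set Q : ℝ := (2 * (N : ℝ)) ^ q with hQ
  have hQ1 : 1 ≤ Q := Real.one_le_rpow hN2' hq0
  have hQr : 2 * Q + 1 ≤ r := by
    have h1 : 3 * Q ≤ (2 * (N : ℝ)) ^ (e / 7) := by
      have h2 : (2 * (N : ℝ)) ^ (e / 7) = (2 * (N : ℝ)) ^ (e / 7 - q) * Q := by
        rw [hQ, ← Real.rpow_add (by linarith)]
        congr 1
        ring
      rw [h2]
      exact mul_le_mul_of_nonneg_right (hN2 N hNN2) (by linarith)
    linarith
  -- the copies of the vertices
  let cp : Fin n × Fin (n ^ 5) → Fin N := fun p => Fin.castLE hnN (finProdFinEquiv p)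
  have hcp : Function.Injective cp :=
    (Fin.castLE_injective hnN).comp finProdFinEquiv.injective
  let z0 : Fin n ⊕ Fin n → Fin (n ^ 5) := fun _ => ⟨0, hKpos⟩
  obtain ⟨hv0, he0'⟩ := copy_props cp src dst b δ μ hval heig z0
  refine ⟨ι, hι, fun e => cp (src e, z0 (Sum.inl (src e))),
    fun e => cp (dst e, z0 (Sum.inr (dst e))), b, hne, hv0, he0',
    copy_deg cp hcp src Δ hd1 ⟨0, hKpos⟩, copy_deg cp hcp dst Δ hd2 ⟨0, hKpos⟩, ?_⟩
  intro Y _ _ R A c pt hR hpt
  refine perm_avg cp hcp src dst b z0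
    (fun I => Certifies {y | ∀ j, A j y ≤ c j} pt s I) (Real.exp (-Q)) ?_
  intro g
  classical
  obtain ⟨I, hI, u, v, hcard, hu, hv, h0, hdec⟩ := gameAv (fun p => g.1 (cp p))
    (fun p => g.2 (cp p)) (g.1.injective.comp hcp) (g.2.injective.comp hcp) s src dst b R A c pt hpt
  set F : (Fin n ⊕ Fin n → ZMod k) → ℝ := fun z =>
    s - (Game.mk src dst (fun e => Equiv.addRight (b e))).satFrac
      (fun i => z (Sum.inl i)) (fun i => z (Sum.inr i)) with hF
  have hF1 : ∀ y, F y ≤ 1 := by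
    intro y
    have h1 : 0 ≤ (Game.mk src dst (fun e => Equiv.addRight (b e))).satFrac
        (fun i => y (Sum.inl i)) (fun i => y (Sum.inr i)) := by
      unfold Game.satFrac
      exact div_nonneg (Nat.cast_nonneg _) (Nat.cast_nonneg _)
    show s - _ ≤ 1
    linarith
  have hFr : ∀ T : Finset (Fin n ⊕ Fin n), r < T.card → ∀ y, es T F y = 0 :=
    fun T hT' y => es_sat src dst b s T (by omega) y
  have hcardV : (Fintype.card (Fin n ⊕ Fin n) : ℝ) = 2 * (n : ℝ) := by
    rw [Fintype.card_sum, Fintype.card_fin]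
    push_cast
    ring
  have hcardK : ((Fintype.card (Fin (n ^ 5)) : ℕ) : ℝ) = (n : ℝ) ^ 5 := by
    rw [Fintype.card_fin]
    push_cast
    ring
  have hcardO : ((Fintype.card (ZMod k) : ℕ) : ℝ) = (k : ℝ) := by
    rw [ZMod.card]
  set G : (Fin n ⊕ Fin n → Fin (n ^ 5)) → Prop := fun z =>
    Certifies {y | ∀ j, A j y ≤ c j} pt s
      (copyGame (fun p => g.1 (cp p)) (fun p => g.2 (cp p)) src dst b z) with hG
  have key := rankAv hEr F hF1 hFr u v hu hv G h0 (fun z hz x => hdec z hz x) τ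
    ((r : ℝ) * Real.log k + Real.log (1 / τ)) hτ
    (by intro j hj; rw [hcardK]; exact hT j hj)
    (by rw [hcardO])
    (by rw [hcardK, hcardO, hcardV]; exact hγ)
  rw [hcardO, hcardV, hcard] at key
  have hEF : E F ≤ s - s1 := by
    have h1 : F = (fun _ => s) - fun z =>
        (Game.mk src dst (fun e => Equiv.addRight (b e))).satFrac
          (fun i => z (Sum.inl i)) (fun i => z (Sum.inr i)) := rfl
    have h2 : (fun _ : Fin n ⊕ Fin n → ZMod k => s) = s • fun _ => (1 : ℝ) := by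
      ext z; simp
    rw [h1, map_sub, h2, map_smul, hE.one, smul_eq_mul, mul_one]
    linarith
  set B : ℝ := 2 * ((2 * (k : ℝ) * (2 * (n : ℝ) + 1)) ^ r * τ) +
      Real.exp (-(2 * (r : ℝ))) with hB
  have hB0 : 0 ≤ B := by positivity
  -- the fraction of the good copies
  set ρ : ℝ := mean (fun z : Fin n ⊕ Fin n → Fin (n ^ 5) => if G z then (1 : ℝ) else 0) with hρ
  have hρ0 : 0 ≤ ρ := by
    rw [hρ]
    unfold mean
    apply div_nonneg _ (Nat.cast_nonneg _)
    refine Finset.sum_nonneg fun z _ => ?_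
    split <;> norm_num
  have hcZ : (0 : ℝ) < (Fintype.card (Fin n ⊕ Fin n → Fin (n ^ 5)) : ℝ) := by
    exact_mod_cast Fintype.card_pos_iff.2 ⟨z0⟩
  have hρc : (Nat.card {z : Fin n ⊕ Fin n → Fin (n ^ 5) // G z} : ℝ) =
      ρ * (Fintype.card (Fin n ⊕ Fin n → Fin (n ^ 5)) : ℝ) := by
    rw [hρ]
    unfold mean
    rw [div_mul_cancel₀ _ hcZ.ne', Finset.sum_boole, Nat.card_eq_fintype_card,
      Fintype.card_subtype]
  rw [hρc]
  refine mul_le_mul_of_nonneg_right ?_ hcZ.le
  have h1 : ρ * (s1 - s) ≤ ((R + 1 : ℕ) : ℝ) * B := by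
    have h2 : ρ * E F ≤ ρ * (s - s1) := mul_le_mul_of_nonneg_left hEF hρ0
    nlinarith
  have hexpr : 0 < Real.exp r := Real.exp_pos _
  have h2 : B ≤ (s1 - s) * Real.exp (-(r : ℝ)) := by
    have h3 : Real.exp r * B ≤ s1 - s := by nlinarith
    have h4 : B = Real.exp (-(r : ℝ)) * (Real.exp r * B) := by
      rw [← mul_assoc, ← Real.exp_add]
      simp
    rw [h4, mul_comm (s1 - s)]
    exact mul_le_mul_of_nonneg_left h3 (Real.exp_pos _).le
  have h5 : ((R + 1 : ℕ) : ℝ) ≤ Real.exp (Q + 1) := by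
    push_cast
    have h6 : Real.exp (Q + 1) = Real.exp Q * Real.exp 1 := Real.exp_add _ _
    have h7 : (2 : ℝ) ≤ Real.exp 1 := by
      have := Real.add_one_le_exp (1 : ℝ)
      linarith
    have h8 : 1 ≤ Real.exp Q := Real.one_le_exp (by linarith)
    rw [h6]
    nlinarith
  have h6 : ρ * (s1 - s) ≤ Real.exp (-Q) * (s1 - s) := by
    calc ρ * (s1 - s) ≤ ((R + 1 : ℕ) : ℝ) * B := h1
      _ ≤ Real.exp (Q + 1) * ((s1 - s) * Real.exp (-(r : ℝ))) :=
          mul_le_mul h5 h2 hB0 (Real.exp_pos _).le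
      _ = Real.exp (Q + 1 - r) * (s1 - s) := by
          have e9 : Real.exp (Q + 1 - r) = Real.exp (Q + 1) * Real.exp (-(r : ℝ)) := by
            rw [← Real.exp_add]
            congr 1
          rw [e9]
          ring
      _ ≤ Real.exp (-Q) * (s1 - s) := by
          apply mul_le_mul_of_nonneg_right _ hη.le
          apply Real.exp_le_exp.2
          linarith
  exact le_of_mul_le_mul_right h6 hη

end Pool.Agent.Lib.P325av
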