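import Pool.Agent.Lib.P325av.ConvAv
import Pool.Agent.Lib.P325z.MainED

/-!
Convex programs on almost all relabelings of one unique game on an expander.
-/

open scoped BigOperators

namespace Pool.Agent.Lib.P325av

open Pool.Agent.Lib.P325x (Game)

theorem mainAv (s δ : ℝ) (hδ : 0 < δ) (hδ2 : δ ≤ 1 / 2) (hδs : δ ≤ s) (hs : s < 1)
    (k : ℕ) (hk : 36 ≤ (k : ℝ) * δ ^ 2) :
    ∃ N0 : ℕ, ∀ N ≥ N0, ∃ (ι : Type) (_ : Fintype ι) (src dst : ι → Fin N) (b : ι → ZMod k),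
      Nonempty ι ∧
      (Game.mk src dst (fun e => Equiv.addRight (b e))).value ≤ δ ∧
      (Game.mk src dst (fun e => Equiv.addRight (b e))).SecondEigenvalueLE δ ∧
      (∀ v, (Finset.univ.filter (fun e => src e = v)).card ≤ ⌈5 / δ⌉₊ ^ 8) ∧
      (∀ v, (Finset.univ.filter (fun e => dst e = v)).card ≤ ⌈5 / δ⌉₊ ^ 8) ∧
      ∀ (Y : Type) [AddCommGroup Y] [Module ℝ Y] (R D : ℕ)
        (A : Fin R → Y →ₗ[ℝ] (Fin D → ℝ)) (C : Fin R → Set (Fin D → ℝ))
        (pt : (Fin N ⊕ Fin N → ZMod k) → Y),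
        (R : ℝ) ≤ Real.exp ((2 * (N : ℝ)) ^ (Real.log (1 / s) / Real.log (1 / δ) / 225000000)) →
        (D : ℝ) ≤ (2 * (N : ℝ)) ^ (Real.log (1 / s) / Real.log (1 / δ) / 225000000) →
        (∀ j, Convex ℝ (C j)) → (∀ z j, A j (pt z) ∈ C j) →
        (Nat.card {g : Equiv.Perm (Fin N) × Equiv.Perm (Fin N) //
          Certifies {y | ∀ j, A j y ∈ C j} pt s
            (relabel (Game.mk src dst (fun e => Equiv.addRight (b e))) g)} : ℝ) ≤
          Real.exp (-(2 * (N : ℝ)) ^ (Real.log (1 / s) / Real.log (1 / δ) / 225000000)) *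
            (N.factorial : ℝ) ^ 2 := by
  have hs0 : 0 < s := hδ.trans_le hδs
  have hss : s ≤ Real.sqrt s := by
    apply Real.le_sqrt_of_sq_le
    nlinarith
  have hr0 : 0 < Real.sqrt s := Real.sqrt_pos.2 hs0
  have hr1 : Real.sqrt s < 1 := by
    rw [Real.sqrt_lt' one_pos]
    linarith
  have hrr : Real.sqrt s ≤ Real.sqrt (Real.sqrt s) := by
    apply Real.le_sqrt_of_sq_le
    nlinarith
  have hq1 : Real.sqrt (Real.sqrt s) < 1 := by
    rw [Real.sqrt_lt' one_pos]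
    linarith
  have hld : 0 < Real.log (1 / δ) := Real.log_pos (by rw [lt_div_iff₀ hδ]; linarith)
  have hls : 0 < Real.log (1 / s) := Real.log_pos (by rw [lt_div_iff₀ hs0]; linarith)
  have hle : Real.log (1 / s) ≤ Real.log (1 / δ) :=
    Real.log_le_log (by positivity) (one_div_le_one_div_of_le hδ hδs)
  set x : ℝ := Real.log (1 / s) / Real.log (1 / δ) with hx
  have hx0 : 0 < x := div_pos hls hld
  have hx1 : x ≤ 1 := (div_le_one hld).2 hle
  have hlog : Real.log (1 / Real.sqrt (Real.sqrt s)) = Real.log (1 / s) / 4 := by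
    rw [one_div, one_div, Real.log_inv, Real.log_inv, Real.log_sqrt hr0.le, Real.log_sqrt hs0.le]
    ring
  have hk0 : k ≠ 0 := by
    rintro rfl
    norm_num at hk
  obtain ⟨n0, hn0⟩ := Pool.Agent.Lib.P325z.mainED (Real.sqrt (Real.sqrt s)) δ hδ hδ2
    (hδs.trans (hss.trans hrr)) hq1 k hk
  have hbase : Base (Real.sqrt (Real.sqrt s)) δ δ (x / 16000000) k (⌈5 / δ⌉₊ ^ 8) := by
    refine ⟨n0, fun n hn => ?_⟩
    obtain ⟨ι, _, src, dst, b, r, E, h1, h2, h3, h4, hd1, hd2, h5, _, h6⟩ := hn0 n hn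
    refine ⟨ι, inferInstance, src, dst, b, r, E, h1, ?_, h3, h4, hd1, hd2, h5, h6⟩
    rw [hlog] at h2
    have h7 : x / 16000000 = Real.log (1 / s) / 4 / Real.log (1 / δ) / 4000000 := by
      rw [hx]
      ring
    rw [h7]
    exact h2
  exact convAv s δ δ (x / 16000000) (x / 225000000) hs0 hs (by positivity) (by linarith)
    (by positivity) (by linarith) k _ (Nat.one_le_iff_ne_zero.2 hk0) hbase

end Pool.Agent.Lib.P325av
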